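import Pool.Agent.Z26.Atri.B

set_option autoImplicit false
open Set Topology Filter

/-! The arc: an atriodic continuum of dimension one without one-dimensional indecomposable
subcontinua. -/

namespace Pool.Agent.Z26.Atri

lemma sep {X : Type} [TopologicalSpace X] {s A D : Set X} (hs : IsPreconnected s) (c : s ⊆ A ∪ D)
    (h1 : closure A ∩ D = ∅) (h2 : A ∩ closure D = ∅) {a b : X} (a1 : a ∈ s) (a2 : a ∈ A)
    (b1 : b ∈ s) (b2 : b ∈ D) : False := by
  have k1 : ∀ x ∈ A, x ∉ closure D := fun x l m => (h2 ▸ (⟨l, m⟩ : x ∈ A ∩ closure D) : x ∈ (∅ : Set X))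
  have k2 : ∀ x ∈ D, x ∉ closure A := fun x l m => (h1 ▸ (⟨m, l⟩ : x ∈ closure A ∩ D) : x ∈ (∅ : Set X))
  rcases isPreconnected_iff_subset_of_disjoint.1 hs (closure D)ᶜ (closure A)ᶜ
    isClosed_closure.isOpen_compl isClosed_closure.isOpen_compl
    (fun x hx => (c hx).imp (k1 x) (k2 x))
    (eq_empty_of_forall_notMem fun x hx => (c hx.1).elim (fun l => hx.2.2 (subset_closure l))
      fun l => hx.2.1 (subset_closure l)) with l | l
  · exact l b1 (subset_closure b2)
  · exact l a1 (subset_closure a2)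

lemma side {T Z A D : Set unitInterval} (hT : IsConnected T) (e : T \ Z = A ∪ D)
    (h1 : closure A ∩ D = ∅) (h2 : A ∩ closure D = ∅) {a b : unitInterval} (ha : a ∈ A)
    (hb : b ∈ D) :
    ¬ ((∀ z ∈ Z, a < z) ∧ ∀ z ∈ Z, b < z) ∧ ¬ ((∀ z ∈ Z, z < a) ∧ ∀ z ∈ Z, z < b) := by
  have oT := hT.isPreconnected.ordConnected
  have aT : a ∈ T := (e.symm.subset (Or.inl ha)).1
  have bT : b ∈ T := (e.symm.subset (Or.inr hb)).1
  have key : (∀ x ∈ uIcc a b, x ∉ Z) → False := fun k =>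
    sep (s := uIcc a b) isPreconnected_uIcc
      (fun x hx => e.subset ⟨oT.uIcc_subset aT bT hx, k x hx⟩) h1 h2 left_mem_uIcc ha
      right_mem_uIcc hb
  constructor
  · rintro ⟨h3, h4⟩
    refine key fun x hx hz => ?_
    rcases le_sup_iff.1 hx.2 with l | l
    exacts [(h3 x hz).not_ge l, (h4 x hz).not_ge l]
  · rintro ⟨h3, h4⟩
    refine key fun x hx hz => ?_
    rcases inf_le_iff.1 hx.1 with l | l
    exacts [(h3 x hz).not_ge l, (h4 x hz).not_ge l]

lemma arc_atriodic (T : Set unitInterval) : ¬ Tr T := by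
  rintro ⟨-, hT, Z, -, -, hZ, A, B, C, ⟨a, ha⟩, ⟨b, hb⟩, ⟨c, hc⟩, e, h1, h2, h3, h4, h5, h6⟩
  have oZ := hZ.isPreconnected.ordConnected
  have sd : ∀ x, x ∉ Z → (∀ z ∈ Z, x < z) ∨ ∀ z ∈ Z, z < x := by
    intro x hx
    by_contra n
    push Not at n
    obtain ⟨⟨z, z1, z2⟩, w, w1, w2⟩ := n
    exact hx (oZ.out z1 w1 ⟨z2, w2⟩)
  have nA : a ∉ Z := (e.symm.subset (Or.inl (Or.inl ha))).2
  have nB : b ∉ Z := (e.symm.subset (Or.inl (Or.inr hb))).2
  have nC : c ∉ Z := (e.symm.subset (Or.inr hc)).2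
  have ab := side (A := A) (D := B ∪ C) hT (by rw [e, union_assoc])
    (by rw [inter_union_distrib_left, h1, h3, union_empty])
    (by rw [closure_union, inter_union_distrib_left, h2, h4, union_empty]) ha (Or.inl hb)
  have ac := side (A := A) (D := B ∪ C) hT (by rw [e, union_assoc])
    (by rw [inter_union_distrib_left, h1, h3, union_empty])
    (by rw [closure_union, inter_union_distrib_left, h2, h4, union_empty]) ha (Or.inr hc)
  have bc := side (A := A ∪ B) (D := C) hT e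
    (by rw [closure_union, union_inter_distrib_right, h3, h5, union_empty])
    (by rw [union_inter_distrib_right, h4, h6, union_empty]) (Or.inr hb) hc
  rcases sd a nA with p | p <;> rcases sd b nB with q | q <;> rcases sd c nC with r | r
  exacts [ab.1 ⟨p, q⟩, ab.1 ⟨p, q⟩, ac.1 ⟨p, r⟩, bc.2 ⟨q, r⟩, bc.1 ⟨q, r⟩, ac.2 ⟨p, r⟩,
    ab.2 ⟨p, q⟩, ab.2 ⟨p, q⟩]

lemma arc_dim : DD (univ : Set unitInterval) 1 := by
  intro m U u1 u2
  obtain ⟨δ, hδ, h⟩ := lebesgue_number_lemma_of_metric isCompact_univ u1 u2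
  obtain ⟨N, hN⟩ := exists_nat_one_div_lt hδ
  have hN0 : (0 : ℝ) < N + 1 := by positivity
  refine ⟨N + 2, fun j => {x | |(x : ℝ) - j / (N + 1)| < 2 / 3 / (N + 1)}, fun j => ?_, fun x _ => ?_,
    fun j => ?_, fun x _ => ?_⟩
  · exact isOpen_lt (by fun_prop) continuous_const
  · -- covering
    have hx0 : 0 ≤ (x : ℝ) * (N + 1) := mul_nonneg x.2.1 hN0.le
    have h1 : ⌊(x : ℝ) * (N + 1) + 1 / 2⌋₊ < N + 2 := by
      rw [Nat.floor_lt (by positivity)]
      have : (x : ℝ) * (N + 1) ≤ N + 1 := by nlinarith [x.2.2]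
      push_cast
      linarith
    refine mem_iUnion.2 ⟨⟨_, h1⟩, ?_⟩
    have h2 := Nat.floor_le (show 0 ≤ (x : ℝ) * (N + 1) + 1 / 2 by positivity)
    have h3 := Nat.lt_floor_add_one ((x : ℝ) * (N + 1) + 1 / 2)
    change |(x : ℝ) - (⌊(x : ℝ) * (N + 1) + 1 / 2⌋₊ : ℕ) / (N + 1)| < 2 / 3 / (N + 1)
    generalize (⌊(x : ℝ) * (N + 1) + 1 / 2⌋₊ : ℕ) = k at h2 h3
    rw [show (x : ℝ) - (k : ℝ) / (N + 1) = ((x : ℝ) * (N + 1) - k) / (N + 1) by field_simp,
      abs_div, abs_of_pos hN0]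
    refine (div_lt_div_iff_of_pos_right hN0).2 ?_
    rw [abs_lt]
    constructor <;> linarith
  · -- refinement
    have hj : (j : ℝ) / (N + 1) ∈ Icc (0 : ℝ) 1 := by
      refine ⟨by positivity, ?_⟩
      rw [div_le_one hN0]
      have : (j : ℕ) ≤ N + 1 := by have := j.2; omega
      exact_mod_cast this
    obtain ⟨i, hi⟩ := h ⟨_, hj⟩ trivial
    refine ⟨i, fun x hx => hi ?_⟩
    have hx' : |(x : ℝ) - j / (N + 1)| < 2 / 3 / (N + 1) := hx
    rw [Metric.mem_ball, Subtype.dist_eq, Real.dist_eq]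
    refine hx'.trans (lt_trans ?_ hN)
    refine (div_lt_div_iff_of_pos_right hN0).2 (by norm_num)
  · -- order
    by_contra hc
    rw [not_le] at hc
    obtain ⟨a, b, c, l, m', n, r1, r2, r3⟩ := (two_lt_ncard_iff (toFinite _)).1 hc
    have key : ∀ a b : Fin (N + 2), |(x : ℝ) - a / (N + 1)| < 2 / 3 / (N + 1) →
        |(x : ℝ) - b / (N + 1)| < 2 / 3 / (N + 1) → (a : ℕ) < b + 2 := by
      intro a b h1 h2
      have e1 : (x : ℝ) - (a : ℝ) / (N + 1) = ((x : ℝ) * (N + 1) - a) / (N + 1) := by field_simp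
      have e2 : (x : ℝ) - (b : ℝ) / (N + 1) = ((x : ℝ) * (N + 1) - b) / (N + 1) := by field_simp
      rw [e1, abs_div, abs_of_pos hN0, div_lt_div_iff_of_pos_right hN0, abs_lt] at h1
      rw [e2, abs_div, abs_of_pos hN0, div_lt_div_iff_of_pos_right hN0, abs_lt] at h2
      have : (a : ℝ) < b + 2 := by linarith
      exact_mod_cast this
    have n1 : (a : ℕ) ≠ b := fun h => r1 (Fin.ext h)
    have n2 : (a : ℕ) ≠ c := fun h => r2 (Fin.ext h)
    have n3 : (b : ℕ) ≠ c := fun h => r3 (Fin.ext h)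
    have := key a b l m'
    have := key b a m' l
    have := key a c l n
    have := key c a n l
    have := key b c m' n
    have := key c b n m'
    omega

lemma arc_not_dim : ¬ DD (univ : Set unitInterval) 0 := by
  intro h
  obtain ⟨k, V, v1, v2, v3, v4⟩ := h 2 ![{x | (x : ℝ) < 1}, {x | 0 < (x : ℝ)}] (by
      intro i
      fin_cases i
      · exact isOpen_lt continuous_subtype_val continuous_const
      · exact isOpen_lt continuous_const continuous_subtype_val)
    (by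
      intro x _
      rcases lt_or_ge (x : ℝ) 1 with l | l
      · exact mem_iUnion.2 ⟨0, l⟩
      · exact mem_iUnion.2 ⟨1, show 0 < (x : ℝ) by linarith⟩)
  obtain ⟨j, hj⟩ := mem_iUnion.1 (v2 (mem_univ (0 : unitInterval)))
  have hu : ∀ a b x, x ∈ V a → x ∈ V b → a = b := fun a b x l m =>
    (ncard_le_one (toFinite _)).1 (v4 x trivial) a l b m
  have hcl : IsClopen (V j) := by
    refine ⟨?_, v1 j⟩
    have : V j = (⋃ i, ⋃ _ : i ≠ j, V i)ᶜ := by
      ext x
      simp only [mem_compl_iff, mem_iUnion, not_exists]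
      constructor
      · intro l i hi m
        exact hi (hu _ _ x m l)
      · intro l
        obtain ⟨i, hi⟩ := mem_iUnion.1 (v2 (mem_univ x))
        by_cases e : i = j
        · exact e ▸ hi
        · exact (l i e hi).elim
    rw [this]
    exact (isOpen_iUnion fun i => isOpen_iUnion fun _ => v1 i).isClosed_compl
  rcases isClopen_iff.1 hcl with l | l
  · rw [l] at hj
    exact hj
  · obtain ⟨i, hi⟩ := v3 j
    rw [l] at hi
    fin_cases i
    · have := hi (mem_univ (1 : unitInterval))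
      change ((1 : unitInterval) : ℝ) < 1 at this
      simp at this
    · have := hi (mem_univ (0 : unitInterval))
      change 0 < ((0 : unitInterval) : ℝ) at this
      simp at this

lemma sub_dim {X : Type} [TopologicalSpace X] {K : Set X} (h : K.Subsingleton) (n : ℕ) :
    DD K n := by
  intro m U u1 u2
  rcases K.eq_empty_or_nonempty with rfl | ⟨x, hx⟩
  · exact ⟨0, fun j => ∅, fun _ => isOpen_empty, by simp, fun j => j.elim0, by simp⟩
  · obtain ⟨i, hi⟩ := mem_iUnion.1 (u2 hx)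
    refine ⟨1, fun _ => U i, fun _ => u1 i, fun y hy => mem_iUnion.2 ⟨0, h hx hy ▸ hi⟩,
      fun _ => ⟨i, subset_rfl⟩, fun y hy => ?_⟩
    refine (ncard_le_ncard (subset_univ _) (toFinite _)).trans ?_
    rw [ncard_univ]
    simp

lemma arc_ind {K : Set unitInterval} (hK : IsCompact K) (cK : IsConnected K)
    (h : ∀ P Q : Set unitInterval, IsCompact P → IsConnected P → IsCompact Q → IsConnected Q →
      P ∪ Q = K → P = K ∨ Q = K) : K.Subsingleton := by
  have oK := cK.isPreconnected.ordConnected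
  intro a ha b hb
  by_contra hab
  wlog l : a < b generalizing a b
  · exact this hb ha (Ne.symm hab) (lt_of_le_of_ne (not_lt.1 l) (Ne.symm hab))
  obtain ⟨c, c1, c2⟩ := exists_between l
  have hc : c ∈ K := oK.out ha hb ⟨c1.le, c2.le⟩
  have e : K ∩ Iic c ∪ K ∩ Ici c = K := by
    rw [← inter_union_distrib_left, Iic_union_Ici, inter_univ]
  rcases h (K ∩ Iic c) (K ∩ Ici c) (hK.inter_right isClosed_Iic)
    ⟨⟨a, ha, c1.le⟩, (oK.inter ordConnected_Iic).isPreconnected⟩ (hK.inter_right isClosed_Ici)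
    ⟨⟨b, hb, c2.le⟩, (oK.inter ordConnected_Ici).isPreconnected⟩ e with k | k
  · exact ((k.symm.subset hb).2.trans_lt c2).false
  · exact (c1.trans_le (k.symm.subset ha).2).false

end Pool.Agent.Z26.Atri
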